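import Pool.Agent.N983.RT.Stm2

set_option autoImplicit false

/-! Hoeffding's inequality (package HOE2 of project RT). -/

namespace Pool.Agent.U652.RT

open Pool.Agent.N983.RT MeasureTheory ProbabilityTheory

/-- one side -/
theorem hoe_side {Ω : Type} [MeasurableSpace Ω] (μ : Measure Ω) [IsProbabilityMeasure μ]
    (X : Sym2 (Finset Wv) → Ω → ℝ) (hX : ∀ c, Measurable (X c)) (hi : iIndepFun X μ)
    (h : ∀ c, (∀ᵐ ω ∂μ, |X c ω| ≤ 1) ∧ ∫ ω, X c ω ∂μ = 0)
    (F : Finset (Sym2 (Finset Wv))) (a : Sym2 (Finset Wv) → ℝ) (t V : ℝ) (ht : 0 ≤ t)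
    (hV : 0 < V) (ha : ∑ c ∈ F, a c ^ 2 ≤ V) :
    μ.real {ω | t ≤ ∑ c ∈ F, a c * X c ω} ≤ Real.exp (-t ^ 2 / (2 * V)) := by
  have hsub : ∀ c, HasSubgaussianMGF (X c) 1 μ := by
    intro c
    have h1 := hasSubgaussianMGF_of_mem_Icc_of_integral_eq_zero (μ := μ) (X := X c) (a := -1)
      (b := 1) (hX c).aemeasurable
      ((h c).1.mono fun ω hω => by rw [abs_le] at hω; exact ⟨hω.1, hω.2⟩) (h c).2
    have h2 : ((‖(1 : ℝ) - -1‖₊ / 2) ^ 2) = 1 := by
      have h3 : ‖(1 : ℝ) - -1‖₊ = 2 := by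
        rw [← NNReal.coe_inj]
        simp only [coe_nnnorm, NNReal.coe_ofNat, Real.norm_eq_abs]
        norm_num
      rw [h3]; norm_num
    rwa [h2] at h1
  have hind : iIndepFun (fun c ω => a c * X c ω) μ := by
    have := hi.comp (fun c (x : ℝ) => a c * x) (fun c => by fun_prop)
    exact this
  let b : Sym2 (Finset Wv) → NNReal := fun c => ⟨a c ^ 2, sq_nonneg _⟩
  have hs : ∀ c ∈ F, HasSubgaussianMGF (fun ω => a c * X c ω) (b c * 1) μ :=
    fun c _ => (hsub c).const_mul (a c)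
  have key := HasSubgaussianMGF.measure_sum_ge_le_of_iIndepFun hind
    (c := fun c => b c * 1) (s := F) hs ht
  have hsum : ((∑ i ∈ F, b i * 1 : NNReal) : ℝ) = ∑ c ∈ F, a c ^ 2 := by
    rw [NNReal.coe_sum]
    exact Finset.sum_congr rfl fun c _ => by rw [mul_one]; rfl
  rw [hsum] at key
  have hS0 : 0 ≤ ∑ c ∈ F, a c ^ 2 := Finset.sum_nonneg fun c _ => sq_nonneg _
  rcases hS0.eq_or_lt with h0 | h0
  · -- all coefficients vanish
    have hz : ∀ c ∈ F, a c = 0 := fun c hc => by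
      have := (Finset.sum_eq_zero_iff_of_nonneg (fun c _ => sq_nonneg (a c))).1 h0.symm c hc
      exact pow_eq_zero_iff (two_ne_zero) |>.1 this
    rcases ht.eq_or_lt with h1 | h1
    · rw [← h1]
      simp only [ne_eq, OfNat.ofNat_ne_zero, not_false_eq_true, zero_pow, neg_zero, zero_div,
        Real.exp_zero]
      exact measureReal_le_one
    · have he : {ω | t ≤ ∑ c ∈ F, a c * X c ω} = ∅ := by
        ext ω
        simp only [Set.mem_ofPred_eq, Set.mem_empty_iff_false, iff_false, not_le]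
        rw [Finset.sum_eq_zero fun c hc => by rw [hz c hc, zero_mul]]
        exact h1
      rw [he]
      simp only [measureReal_empty]
      positivity
  · refine key.trans (Real.exp_le_exp.2 ?_)
    rw [neg_div, neg_div, neg_le_neg_iff]
    exact div_le_div_of_nonneg_left (by positivity) (by positivity) (by linarith)

theorem t_HOE2 : S_HOE2 := by
  intro Ω _ μ _ X hX hi h F a t V ht hV ha
  have h1 := hoe_side μ X hX hi h F a t V ht hV ha
  have h2 := hoe_side μ X hX hi h F (fun c => - a c) t V ht hV (by simpa using ha)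
  have hsub : {ω | t ≤ |∑ c ∈ F, a c * X c ω|} ⊆
      {ω | t ≤ ∑ c ∈ F, a c * X c ω} ∪ {ω | t ≤ ∑ c ∈ F, (-a c) * X c ω} := by
    intro ω hω
    simp only [Set.mem_ofPred_eq, Set.mem_union] at hω ⊢
    rcases le_abs.1 hω with h3 | h3
    · exact Or.inl h3
    · right
      simpa [neg_mul, Finset.sum_neg_distrib] using h3
  have h3 : μ.real {ω | t ≤ |∑ c ∈ F, a c * X c ω|} ≤ 2 * Real.exp (-t ^ 2 / (2 * V)) := by
    calc _ ≤ μ.real ({ω | t ≤ ∑ c ∈ F, a c * X c ω} ∪ {ω | t ≤ ∑ c ∈ F, (-a c) * X c ω}) :=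
          measureReal_mono hsub
      _ ≤ _ := measureReal_union_le _ _
      _ ≤ _ := by linarith
  rw [← ENNReal.ofReal_toReal (measure_ne_top μ {ω | t ≤ |∑ c ∈ F, a c * X c ω|})]
  exact ENNReal.ofReal_le_ofReal h3

end Pool.Agent.U652.RT
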